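import Pool.Agent.QPI.Stmts

set_option autoImplicit false

/-!
# B_HAT: constant coefficient and degree of `hat`
-/

namespace Pool.Agent.QPI.H74

open MvPolynomial

variable {N₁ N₂ : ℕ}

theorem wt_ne_zero (v : Fin N₁ ⊕ Fin N₂) : wt v ≠ 0 := by
  rcases v with u | u <;> simp [wt]

theorem const_hat {S : Type} [CommRing S] [Algebra ℚ S] (φ : Fin N₁ ⊕ Fin N₂ → S)
    (p : MvPolynomial (Fin N₁ ⊕ Fin N₂) ℚ) :
    PowerSeries.constantCoeff (hat φ p) = algebraMap ℚ S (constantCoeff p) := by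
  induction p using MvPolynomial.induction_on with
  | C a =>
    have h : hat φ (C a) = PowerSeries.C (algebraMap ℚ S a) := by
      unfold hat
      rw [aeval_C, PowerSeries.algebraMap_apply]
    rw [h, PowerSeries.constantCoeff_C, constantCoeff_C]
  | add p q hp hq => rw [map_add, map_add, map_add, map_add, hp, hq]
  | mul_X p v _ =>
    have h : PowerSeries.constantCoeff (hat φ (X v)) = 0 := by
      unfold hat
      rw [aeval_X, map_mul, map_pow, PowerSeries.constantCoeff_X, zero_pow (wt_ne_zero v), zero_mul]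
    rw [map_mul, map_mul, h, mul_zero, map_mul, constantCoeff_X, mul_zero, map_zero]

theorem prod_hat {S : Type} [CommRing S] (φ : Fin N₁ ⊕ Fin N₂ → S)
    (α : Fin N₁ ⊕ Fin N₂ →₀ ℕ) :
    (∏ v ∈ α.support, ((PowerSeries.X : PowerSeries S) ^ wt v * PowerSeries.C (φ v)) ^ α v) =
      PowerSeries.X ^ (Finsupp.weight (wt : Fin N₁ ⊕ Fin N₂ → ℕ) α) *
        PowerSeries.C (∏ v ∈ α.support, φ v ^ α v) := by
  rw [map_prod, Finsupp.weight_apply, Finsupp.sum, ← Finset.prod_pow_eq_pow_sum,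
    ← Finset.prod_mul_distrib]
  refine Finset.prod_congr rfl fun v _ => ?_
  rw [mul_pow, ← pow_mul, map_pow, smul_eq_mul, mul_comm (wt v)]

theorem pd_hat {S : Type} [CommRing S] [Algebra ℚ S] (φ : Fin N₁ ⊕ Fin N₂ → S)
    (p : MvPolynomial (Fin N₁ ⊕ Fin N₂) ℚ) (d : ℕ)
    (hd : weightedTotalDegree (wt : Fin N₁ ⊕ Fin N₂ → ℕ) p ≤ d) : PD (hat φ p) d := by
  intro a ha
  unfold hat
  rw [aeval_def, eval₂_eq, map_sum]
  refine Finset.sum_eq_zero fun α hα => ?_
  have h1 : Finsupp.weight (wt : Fin N₁ ⊕ Fin N₂ → ℕ) α ≤ d :=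
    (le_weightedTotalDegree _ hα).trans hd
  rw [prod_hat, PowerSeries.algebraMap_apply, PowerSeries.coeff_C_mul,
    PowerSeries.coeff_X_pow_mul', if_pos (by omega), PowerSeries.coeff_C, if_neg (by omega),
    mul_zero]

/-- Row B_HAT. -/
theorem b_hat : HatStmt := fun _ _ _ _ _ φ p => ⟨const_hat φ p, fun d hd => pd_hat φ p d hd⟩

end Pool.Agent.QPI.H74
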